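import Pool.Agent.Lib.MP_9f0ab0_gt.Main

/-!
# Central sectional areas do not determine polytopes with few facets stably

The negation of Q1: there is `t` (namely `t = 2`) such that for every `t'` there are, in every
sufficiently large dimension `d`, isotropic centrally symmetric polytopes `P`, `Q` with at most
`d ^ t` facets each whose relative central sectional areas differ by at most `d ^ (-t')` in every
direction, although their Hausdorff distance is more than `1 / 10`, and even more than any given
constant `R`. The definitions are in `Pool.Agent.Lib.MP_9f0ab0_gt.Defs`.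
-/

open Metric Pool.Agent.Lib.MP_9f0ab0_gt

namespace Pool.Agent.Results.MP_9f0ab0_gt.UnstableSections

theorem result : ∃ t : ℕ, 0 < t ∧ ∀ t' : ℕ, 0 < t' → ∀ R : ℝ, ∃ d₀ : ℕ, 2 ≤ d₀ ∧
    ∀ d : ℕ, d₀ ≤ d → ∃ P Q : Set (E d), Admissible (d ^ t) P ∧ Admissible (d ^ t) Q ∧
      SectionsWithin (1 / (d : ℝ) ^ t') P Q ∧ R < hausdorffDist P Q :=
  ⟨2, two_pos, fun t' _ R => main t' R⟩

end Pool.Agent.Results.MP_9f0ab0_gt.UnstableSections
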